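import Pool.Agent.R947.CQ.Stm

/-! CQ-BRG: interactions on finite sets of the lattice are interactions on boxes. -/

set_option autoImplicit false

open scoped BigOperators ComplexConjugate
open Finset Pool.Agent.TH235.PP

namespace CQ947

namespace BrgAux

lemma sh_inj' {R L : ℕ} [NeZero L] (hR : R ≤ L) (u : Site L) (x y : Fin R × Fin R)
    (h : (sh u x : Site L) = sh u y) : x = y := by
  unfold sh at h
  rw [Prod.mk.injEq] at h
  obtain ⟨h1, h2⟩ := h
  have h1' := add_left_cancel h1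
  have h2' := add_left_cancel h2
  rw [ZMod.natCast_eq_natCast_iff'] at h1' h2'
  rw [Nat.mod_eq_of_lt (lt_of_lt_of_le x.1.2 hR), Nat.mod_eq_of_lt (lt_of_lt_of_le y.1.2 hR)] at h1'
  rw [Nat.mod_eq_of_lt (lt_of_lt_of_le x.2.2 hR), Nat.mod_eq_of_lt (lt_of_lt_of_le y.2.2 hR)] at h2'
  exact Prod.ext (Fin.ext h1') (Fin.ext h2')

end BrgAux

open BrgAux

theorem t_BRG : S_BRG := by
  classical
  intro d B h
  obtain ⟨N, hN⟩ : ∃ N : ℕ, ∀ x ∈ B, |x.1| ≤ (N : ℤ) ∧ |x.2| ≤ (N : ℤ) := by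
    refine ⟨∑ x ∈ B, (x.1.natAbs + x.2.natAbs), fun x hx => ?_⟩
    have h1 : x.1.natAbs + x.2.natAbs ≤ ∑ x ∈ B, (x.1.natAbs + x.2.natAbs) :=
      Finset.single_le_sum (f := fun x : ℤ × ℤ => x.1.natAbs + x.2.natAbs) (fun _ _ => Nat.zero_le _) hx
    constructor <;> rw [abs_le] <;> omega
  obtain ⟨pos, hpos⟩ : ∃ pos : B → Fin (2 * N + 1) × Fin (2 * N + 1), ∀ x : B,
      (((pos x).1 : ℕ) : ℤ) = x.1.1 + N ∧ (((pos x).2 : ℕ) : ℤ) = x.1.2 + N := by
    have h1 : ∀ x : B, 0 ≤ x.1.1 + N ∧ x.1.1 + N ≤ 2 * N ∧ 0 ≤ x.1.2 + N ∧ x.1.2 + N ≤ 2 * N := by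
      intro x
      obtain ⟨h1, h2⟩ := hN x.1 x.2
      rw [abs_le] at h1 h2
      omega
    refine ⟨fun x => (⟨(x.1.1 + N).toNat, by have := h1 x; omega⟩, ⟨(x.1.2 + N).toNat, by have := h1 x; omega⟩),
      fun x => ?_⟩
    have := h1 x
    constructor
    · show (((x.1.1 + N).toNat : ℕ) : ℤ) = _
      omega
    · show (((x.1.2 + N).toNat : ℕ) : ℤ) = _
      omega
  set h' : BoxOp d (2 * N + 1) := fun s t =>
    if ∀ y, (∀ x : B, pos x ≠ y) → s y = t y then h (fun x => s (pos x)) (fun x => t (pos x)) else 0 with hh'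
  refine ⟨2 * N, (-(N : ℤ), -(N : ℤ)), h', 2 * N + 1, ?_, ?_⟩
  · intro hh
    refine Matrix.IsHermitian.ext fun s t => ?_
    simp only [hh']
    by_cases hc : ∀ y, (∀ x : B, pos x ≠ y) → s y = t y
    · have hc' : ∀ y, (∀ x : B, pos x ≠ y) → t y = s y := fun y hy => (hc y hy).symm
      rw [if_pos hc, if_pos hc']
      exact hh.apply _ _
    · have hc' : ¬ ∀ y, (∀ x : B, pos x ≠ y) → t y = s y := fun hq => hc fun y hy => (hq y hy).symm
      rw [if_neg hc, if_neg hc', star_zero]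
  · intro L _ hL u
    have hsh : ∀ x : B, sh (u + (((-(N : ℤ) : ℤ) : ZMod L), ((-(N : ℤ) : ℤ) : ZMod L))) (pos x) =
        Pool.Agent.H4R2.toTorus L x + u := by
      intro x
      obtain ⟨h1, h2⟩ := hpos x
      have h1' : (((pos x).1 : ℕ) : ZMod L) = (x.1.1 : ZMod L) + N := by
        have := congrArg (fun z : ℤ => (z : ZMod L)) h1
        push_cast at this
        exact this
      have h2' : (((pos x).2 : ℕ) : ZMod L) = (x.1.2 : ZMod L) + N := by
        have := congrArg (fun z : ℤ => (z : ZMod L)) h2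
        push_cast at this
        exact this
      unfold sh Pool.Agent.H4R2.toTorus
      ext
      · simp only [Prod.fst_add, h1']
        push_cast
        ring
      · simp only [Prod.snd_add, h2']
        push_cast
        ring
    have hinj := fun x y => sh_inj' hL (u + (((-(N : ℤ) : ℤ) : ZMod L), ((-(N : ℤ) : ℤ) : ZMod L))) x y
    generalize hu' : (u + (((-(N : ℤ) : ℤ) : ZMod L), ((-(N : ℤ) : ℤ) : ZMod L)) : Site L) = u' at hsh hinj
    funext s t
    unfold Pool.Agent.H4R2.term term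
    simp only [hh', hsh]
    by_cases hP : ∀ v, (∀ x : B, Pool.Agent.H4R2.toTorus L x + u ≠ v) → s v = t v
    · have hP1 : ∀ v, (∀ x : Fin (2 * N + 1) × Fin (2 * N + 1), sh u' x ≠ v) → s v = t v :=
        fun v hv => hP v fun x => by rw [← hsh x]; exact hv _
      have hP2 : ∀ y, (∀ x : B, pos x ≠ y) → s (sh u' y) = t (sh u' y) :=
        fun y hy => hP _ fun x hx => hy x (hinj _ _ ((hsh x).trans hx))
      rw [if_pos hP, if_pos hP1, if_pos hP2]
    · rw [if_neg hP]
      by_cases hP1 : ∀ v, (∀ x : Fin (2 * N + 1) × Fin (2 * N + 1), sh u' x ≠ v) → s v = t v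
      · rw [if_pos hP1, if_neg]
        intro hP2
        apply hP
        intro v hv
        by_cases hb : ∃ y : Fin (2 * N + 1) × Fin (2 * N + 1), sh u' y = v
        · obtain ⟨y, rfl⟩ := hb
          exact hP2 y fun x hx => hv x (by rw [← hsh x, hx])
        · exact hP1 v fun y hy => hb ⟨y, hy⟩
      · rw [if_neg hP1]

end CQ947
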