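import Pool.Agent.R947.CQ.Stm

/-! # Project CQ, piece COL: proper colourings exist -/

set_option autoImplicit false

open Finset Pool.Agent.TH235.PP

namespace CQ947

/-- two sites whose boxes meet -/
def Meet (r : ℕ) {L : ℕ} (u v : Site L) : Prop :=
  ∃ x y : Fin r × Fin r, (sh u x : Site L) = sh v y

theorem Meet.symm {r L : ℕ} {u v : Site L} (h : Meet r u v) : Meet r v u := by
  obtain ⟨x, y, h⟩ := h
  exact ⟨y, x, h.symm⟩

open Classical in
theorem card_meet (r : ℕ) {L : ℕ} (a : Site L) (S : Finset (Site L)) :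
    (S.filter fun v => Meet r a v).card ≤ (r * r) * (r * r) := by
  let F : (Fin r × Fin r) × (Fin r × Fin r) → Site L := fun p =>
    (a.1 + ((p.1.1 : ℕ) : ZMod L) - ((p.2.1 : ℕ) : ZMod L),
      a.2 + ((p.1.2 : ℕ) : ZMod L) - ((p.2.2 : ℕ) : ZMod L))
  have h1 : (S.filter fun v => Meet r a v) ⊆ univ.image F := by
    intro v hv
    obtain ⟨x, y, h⟩ := (mem_filter.1 hv).2
    refine mem_image.2 ⟨(x, y), mem_univ _, ?_⟩
    have e1 : a.1 + ((x.1 : ℕ) : ZMod L) = v.1 + ((y.1 : ℕ) : ZMod L) := congrArg Prod.fst h
    have e2 : a.2 + ((x.2 : ℕ) : ZMod L) = v.2 + ((y.2 : ℕ) : ZMod L) := congrArg Prod.snd h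
    refine Prod.ext ?_ ?_
    · show a.1 + ((x.1 : ℕ) : ZMod L) - ((y.1 : ℕ) : ZMod L) = v.1
      rw [e1]
      ring
    · show a.2 + ((x.2 : ℕ) : ZMod L) - ((y.2 : ℕ) : ZMod L) = v.2
      rw [e2]
      ring
  refine (card_le_card h1).trans (card_image_le.trans ?_)
  simp

theorem t_COL : S_COL := by
  classical
  intro r
  refine ⟨(r * r) * (r * r), fun L _ => ?_⟩
  have key : ∀ S : Finset (Site L), ∃ c : Site L → Fin ((r * r) * (r * r) + 1),
      ∀ u ∈ S, ∀ v ∈ S, u ≠ v → Meet r u v → c u ≠ c v := by
    intro S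
    induction S using Finset.induction_on with
    | empty => exact ⟨fun _ => 0, by simp⟩
    | insert a S ha ih =>
      obtain ⟨c, hc⟩ := ih
      obtain ⟨k, hk⟩ : ∃ k : Fin ((r * r) * (r * r) + 1),
          k ∉ (S.filter fun v => Meet r a v).image c := by
        by_contra h
        push Not at h
        have h1 : (univ : Finset (Fin ((r * r) * (r * r) + 1))) ⊆
            (S.filter fun v => Meet r a v).image c := fun k _ => h k
        have h2 := card_le_card h1
        have h3 : ((S.filter fun v => Meet r a v).image c).card ≤ _ := card_image_le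
        have h4 := card_meet r a S
        rw [card_univ, Fintype.card_fin] at h2
        omega
      have hk' : ∀ v ∈ S, Meet r a v → c v ≠ k := fun v hv hm he =>
        hk (mem_image.2 ⟨v, mem_filter.2 ⟨hv, hm⟩, he⟩)
      refine ⟨Function.update c a k, fun u hu v hv huv hm => ?_⟩
      rcases mem_insert.1 hu with hua | hu'
      · rcases mem_insert.1 hv with hva | hv'
        · exact absurd (hua.trans hva.symm) huv
        · have hva : v ≠ a := fun h => ha (h ▸ hv')
          rw [hua, Function.update_self, Function.update_of_ne hva]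
          exact (hk' v hv' (hua ▸ hm)).symm
      · have hua : u ≠ a := fun h => ha (h ▸ hu')
        rcases mem_insert.1 hv with hva | hv'
        · rw [hva, Function.update_self, Function.update_of_ne hua]
          exact hk' u hu' (hva ▸ hm).symm
        · have hva : v ≠ a := fun h => ha (h ▸ hv')
          rw [Function.update_of_ne hua, Function.update_of_ne hva]
          exact hc u hu' v hv' huv hm
  obtain ⟨c, hc⟩ := key univ
  exact ⟨c, fun u v huv hm => hc u (mem_univ u) v (mem_univ v) huv hm⟩

end CQ947
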