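import Pool.Agent.R947.CQ.Stm

/-! DIS (helper790): operators on disjoint boxes commute. -/

set_option autoImplicit false

open scoped BigOperators ComplexConjugate
open Finset Pool.Agent.TH235.PP

namespace CQ947

namespace DisAux

open SH947.SpcAux

open Classical in
lemma dis_mul {d a c L : ℕ} [NeZero L] (A : BoxOp d a) (C : BoxOp d c) (u v : Site L)
    (ha : a ≤ L) (hdis : ∀ (x : Fin a × Fin a) (y : Fin c × Fin c), (sh u x : Site L) ≠ sh v y)
    (s t : Site L → Fin d) :
    ((term A u : TorOp d L) * term C v) s t =
      if (∀ w : Site L, (∀ x : Fin a × Fin a, sh u x ≠ w) → (∀ y : Fin c × Fin c, sh v y ≠ w) →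
        s w = t w) then
        A (fun x => s (sh u x)) (fun x => t (sh u x)) *
          C (fun y => s (sh v y)) (fun y => t (sh v y)) else 0 := by
  rw [Matrix.mul_apply, Finset.sum_eq_single (ex u s (fun x : Fin a × Fin a => t (sh u x)))]
  · have e1 : (term A u : TorOp d L) s (ex u s (fun x : Fin a × Fin a => t (sh u x))) =
        A (fun x => s (sh u x)) (fun x => t (sh u x)) := by
      unfold term
      rw [if_pos]
      · congr 1
        funext x
        exact ex_in ha u s _ x
      · intro w hw
        exact (ex_out u s _ w hw).symm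
    have e2 : (fun y : Fin c × Fin c => ex u s (fun x : Fin a × Fin a => t (sh u x)) (sh v y)) =
        fun y => s (sh v y) := by
      funext y
      exact ex_out u s _ _ fun x => hdis x y
    by_cases hc : ∀ w : Site L, (∀ x : Fin a × Fin a, sh u x ≠ w) →
        (∀ y : Fin c × Fin c, sh v y ≠ w) → s w = t w
    · rw [if_pos hc, e1]
      congr 1
      unfold term
      rw [if_pos, e2]
      intro w hw
      by_cases hwu : ∃ x : Fin a × Fin a, sh u x = w
      · obtain ⟨x, rfl⟩ := hwu
        exact ex_in ha u s _ x
      · have hwu' : ∀ x : Fin a × Fin a, sh u x ≠ w := fun x hx => hwu ⟨x, hx⟩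
        rw [ex_out u s _ w hwu']
        exact hc w hwu' hw
    · rw [if_neg hc]
      have e3 : (term C v : TorOp d L) (ex u s (fun x : Fin a × Fin a => t (sh u x))) t = 0 := by
        unfold term
        rw [if_neg]
        intro H
        apply hc
        intro w hwu hwv
        rw [← H w hwv, ex_out u s _ w hwu]
      rw [e3, mul_zero]
  · intro r _ hr
    by_contra hne
    have hA : ∀ w : Site L, (∀ x : Fin a × Fin a, sh u x ≠ w) → s w = r w := by
      by_contra h
      apply hne
      have : (term A u : TorOp d L) s r = 0 := by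
        unfold term
        rw [if_neg h]
      rw [this, zero_mul]
    have hC : ∀ w : Site L, (∀ y : Fin c × Fin c, sh v y ≠ w) → r w = t w := by
      by_contra h
      apply hne
      have : (term C v : TorOp d L) r t = 0 := by
        unfold term
        rw [if_neg h]
      rw [this, mul_zero]
    apply hr
    funext w
    by_cases hwu : ∃ x : Fin a × Fin a, sh u x = w
    · obtain ⟨x, rfl⟩ := hwu
      rw [ex_in ha]
      exact hC _ fun y h => hdis x y h.symm
    · have hwu' : ∀ x : Fin a × Fin a, sh u x ≠ w := fun x hx => hwu ⟨x, hx⟩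
      rw [ex_out u s _ w hwu']
      exact (hA w hwu').symm
  · intro h
    exact absurd (mem_univ _) h

end DisAux

open DisAux in
theorem t_DIS : S_DIS := by
  classical
  intro d a c L _ A C u v ha hc hdis
  ext s t
  rw [dis_mul A C u v ha hdis, dis_mul C A v u hc fun y x h => hdis x y h.symm]
  by_cases h : ∀ w : Site L, (∀ x : Fin a × Fin a, sh u x ≠ w) →
      (∀ y : Fin c × Fin c, sh v y ≠ w) → s w = t w
  · rw [if_pos h, if_pos fun w h1 h2 => h w h2 h1, mul_comm]
  · rw [if_neg h, if_neg fun h' => h fun w h1 h2 => h' w h2 h1]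

end CQ947
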