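import Pool.Agent.R947.CQ.Stm

/-! # CQ-LAG: finite spectrum and Lagrange polynomials -/

set_option autoImplicit false

open scoped BigOperators ComplexConjugate
open Finset Pool.Agent.TH235.PP

namespace CQ947

open SH947.SpcAux in
theorem t_LAG : S_LAG := by
  classical
  intro d r T
  let χ : Polynomial ℂ := T.charpoly
  have hχ0 : χ ≠ 0 := (Matrix.charpoly_monic T).ne_zero
  let Λ : Finset ℂ := χ.roots.toFinset
  let q : ℂ → Polynomial ℂ := fun μ =>
    Lagrange.interpolate Λ id (fun ν => if μ = ν then 1 else 0)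
  have hq : ∀ μ : ℂ, ∀ ν ∈ Λ, (q μ).eval ν = if μ = ν then 1 else 0 := by
    intro μ ν hν
    exact Lagrange.eval_interpolate_at_node (s := Λ) (v := id)
      (fun ν => if μ = ν then (1 : ℂ) else 0) (Set.injOn_id _) hν
  refine ⟨Λ, fun μ => Polynomial.aeval T (q μ), fun L _ hL u => ⟨fun ψ lam hψ he => ?_,
    fun a ha μ => ?_⟩⟩
  · have hmem : lam ∈ Λ := by
      have h1 : (term (Polynomial.aeval T χ) u : TorOp d L) = 0 := by
        rw [Matrix.aeval_self_charpoly]
        exact map_zero (termHom hL u)
      rw [term_aeval hL] at h1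
      have h2 := aeval_mulVec _ ψ lam he χ
      rw [h1, Matrix.zero_mulVec] at h2
      have h3 : χ.eval lam = 0 := by
        rcases smul_eq_zero.1 h2.symm with h | h
        · exact h
        · exact absurd h hψ
      exact Multiset.mem_toFinset.2 ((Polynomial.mem_roots hχ0).2 h3)
    refine ⟨hmem, fun μ => ?_⟩
    rw [term_aeval hL, aeval_mulVec _ _ _ he, hq μ lam hmem]
  · rw [term_aeval hL]
    exact aeval_comm _ _ ha (q μ)

end CQ947
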