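import Pool.Agent.R947.CQ.Stm

/-! # OPS: the operators `X j` -/

set_option autoImplicit false

open scoped BigOperators ComplexConjugate
open Finset Pool.Agent.TH235.PP

namespace CQ947

open SH947 (ipr)
open SH947.SpcAux (term_mul term_ct)

lemma ipr_smul {S : Type} [Fintype S] (φ ψ : S → ℂ) (c : ℂ) : ipr φ (c • ψ) = c * ipr φ ψ := by
  unfold SH947.ipr
  rw [Finset.mul_sum]
  refine Finset.sum_congr rfl fun s _ => ?_
  rw [Pi.smul_apply, smul_eq_mul]
  ring

lemma ipr_self {S : Type} [Fintype S] (ψ : S → ℂ) (h : normSq ψ = 1) : ipr ψ ψ = 1 := by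
  have e : ipr ψ ψ = ((normSq ψ : ℝ) : ℂ) := by
    unfold SH947.ipr normSq
    push_cast
    refine Finset.sum_congr rfl fun s _ => ?_
    rw [Complex.conj_mul']
  rw [e, h, Complex.ofReal_one]

lemma ne_zero_of {S : Type} [Fintype S] (ψ : S → ℂ) (h : normSq ψ = 1) : ψ ≠ 0 := by
  intro h0
  have h1 := ipr_self ψ h
  rw [h0] at h1
  unfold SH947.ipr at h1
  simp at h1

/-- eigenvalues of Hermitian matrices are real -/
lemma real_of {S : Type} [Fintype S] (A : Matrix S S ℂ) (hA : A.conjTranspose = A) (ψ : S → ℂ)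
    (h : normSq ψ = 1) (μ : ℂ) (hμ : A.mulVec ψ = μ • ψ) : ((μ.re : ℝ) : ℂ) = μ := by
  have h1 : ipr ψ (A.mulVec ψ) = μ := by rw [hμ, ipr_smul, ipr_self ψ h, mul_one]
  have h2 : conj (ipr ψ (A.mulVec ψ)) = ipr ψ (A.mulVec ψ) := by
    unfold SH947.ipr
    rw [map_sum]
    simp only [Matrix.mulVec, dotProduct, map_mul, map_sum, Complex.conj_conj, Finset.mul_sum]
    rw [Finset.sum_comm]
    refine Finset.sum_congr rfl fun s _ => Finset.sum_congr rfl fun t _ => ?_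
    have e : conj (A t s) = A s t := by
      conv_rhs => rw [← hA]
      rfl
    rw [e]
    ring
  rw [h1] at h2
  exact Complex.conj_eq_iff_re.1 h2

theorem t_OPS (hT : S_TOP) (hL : S_LAG) (hI : S_TIE) : S_OPS := by
  classical
  intro d R' k h O hh
  obtain ⟨Λh, Zh, hΛh⟩ := hL d (R' + 1) h
  choose Pi T hPT using fun μ : ℂ => hT d R' k h O μ hh
  choose Λ Z hΛ using fun μ : ℂ => hL d (k + 2 * R' + 1) (T μ)
  let M : Finset ℂ := Λh.filter fun μ => ((μ.re : ℝ) : ℂ) = μ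
  refine ⟨Σ μ : M, {lam : ℂ // lam ∈ Λ μ.1}, inferInstance, fun j => j.1.1.re, fun j => j.2.1,
    fun j => Z j.1.1 j.2.1 * Pi j.1.1, ?_, ?_⟩
  · rintro ⟨⟨μ, hμ⟩, ⟨x, hx⟩⟩ ⟨⟨μ', hμ'⟩, ⟨x', hx'⟩⟩ h1 h2
    have e1 : μ = μ' := by
      rw [← (Finset.mem_filter.1 hμ).2, ← (Finset.mem_filter.1 hμ').2]
      simp only at h1
      rw [h1]
    subst e1
    simp only at h2
    subst h2
    rfl
  · intro L _ hkL hc
    have hRL : R' + 1 ≤ L := by omega
    refine ⟨?_, ?_, ?_⟩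
    · rintro ⟨⟨μ, hμ⟩, ⟨x, hx⟩⟩ u v
      obtain ⟨h1, h2, h3, h4⟩ := hPT μ L hkL hc
      have h5 := (hΛ μ L hkL u).2 (term h v) (h1 u v) x
      simp only
      rw [term_mul hkL, ← mul_assoc, h5, mul_assoc, h2 u v, mul_assoc]
    · rintro ⟨⟨μ, hμ⟩, ⟨x, hx⟩⟩ u
      obtain ⟨h1, h2, h3, h4⟩ := hPT μ L hkL hc
      have h5 := (hΛ μ L hkL u).2 (term h u) (h1 u u) x
      have hr : ((μ.re : ℝ) : ℂ) = μ := (Finset.mem_filter.1 hμ).2
      simp only
      rw [term_mul hkL, ← mul_assoc, h5, mul_assoc, h3 u, Matrix.mul_smul, hr]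
    · intro ψ μ E hn hv hE hs
      have hψ : ψ ≠ 0 := ne_zero_of ψ hn
      have hA : (term h (0 : Site L) : TorOp d L).conjTranspose = term h (0 : Site L) := by
        rw [← term_ct, hh.eq]
      have hr : ((μ.re : ℝ) : ℂ) = μ := real_of _ hA ψ hn μ (hv 0)
      have hμΛ : μ ∈ Λh := ((hΛh L hRL 0).1 ψ μ hψ (hv 0)).1
      have hμ : μ ∈ M := Finset.mem_filter.2 ⟨hμΛ, hr⟩
      obtain ⟨h1, h2, h3, h4⟩ := hPT μ L hkL hc
      set c : ℂ := ipr ψ ((term O (0 : Site L) : TorOp d L).mulVec ψ) with hcdef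
      have hO : ∀ u : Site L, ipr ψ ((term O u : TorOp d L).mulVec ψ) = c := fun u =>
        hI d (R' + 1) (k + 1) L h O ψ E hψ hE hs u 0
      have hT' : ∀ u : Site L, (term (T μ) u : TorOp d L).mulVec ψ = c • ψ := by
        intro u
        have hcom : (ham h L) * term (T μ) u = term (T μ) u * ham h L := by
          unfold ham
          rw [Finset.sum_mul, Finset.mul_sum]
          exact Finset.sum_congr rfl fun v _ => h1 u v
        obtain ⟨c', hc'⟩ := hs ((term (T μ) u : TorOp d L).mulVec ψ) (by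
          rw [Matrix.mulVec_mulVec, hcom, ← Matrix.mulVec_mulVec, hE, Matrix.mulVec_smul])
        have h5 := (h4 u ψ hv).2
        rw [hO, hc', ipr_smul, ipr_self ψ hn, mul_one] at h5
        rw [hc', h5]
      have hcΛ : c ∈ Λ μ := ((hΛ μ L hkL 0).1 ψ c hψ (hT' 0)).1
      refine ⟨⟨⟨μ, hμ⟩, ⟨c, hcΛ⟩⟩, hr, hO, ?_⟩
      rintro ⟨⟨μ', hμ'⟩, ⟨x, hx⟩⟩ u hj
      have e1 : μ' = μ := by
        rw [← (Finset.mem_filter.1 hμ').2, ← hr]
        simp only at hj
        rw [hj]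
      subst e1
      simp only
      rw [term_mul hkL, ← Matrix.mulVec_mulVec, (h4 u ψ hv).1,
        ((hΛ μ' L hkL u).1 ψ c hψ (hT' u)).2 x]
      congr 1
      by_cases hx' : x = c
      · subst hx'
        simp
      · rw [if_neg hx', if_neg]
        intro H
        apply hx'
        simpa using H

end CQ947
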