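import Pool.Agent.R947.CQ.Stm

/-! # Project CQ: piece RDM -/

set_option autoImplicit false

open scoped BigOperators ComplexConjugate
open Finset Pool.Agent.TH235.PP

namespace CQ947

open SH947 (ipr)

open Classical in
theorem t_RDM (hB : S_BRG) : S_RDM := by
  intro d R a b
  obtain ⟨R', w, h', L₁, -, hL⟩ := hB d R (fun s t => if s = b ∧ t = a then 1 else 0)
  refine ⟨R', h', w, L₁, fun L _ hLL ψ => ?_⟩
  have h1 := hL L hLL 0
  rw [zero_add] at h1
  rw [← h1]
  unfold Pool.Agent.H4R2.rdm ipr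
  rw [Finset.sum_comm]
  apply Finset.sum_congr rfl
  intro t _
  rw [Matrix.mulVec, dotProduct, Finset.mul_sum]
  apply Finset.sum_congr rfl
  intro s _
  have h2 : Pool.Agent.H4R2.term R (fun s t => if s = b ∧ t = a then (1 : ℂ) else 0) L 0 t s =
      if Pool.Agent.H4R2.Ker (fun x : R => Pool.Agent.H4R2.toTorus L x) a b s t then 1 else 0 := by
    unfold Pool.Agent.H4R2.term Pool.Agent.H4R2.Ker
    simp only [add_zero]
    by_cases h3 : ∀ v, (∀ x : R, Pool.Agent.H4R2.toTorus L x ≠ v) → t v = s v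
    · rw [if_pos h3]
      by_cases h4 : ((fun x : R => t (Pool.Agent.H4R2.toTorus L x)) = b ∧
          (fun x : R => s (Pool.Agent.H4R2.toTorus L x)) = a)
      · rw [if_pos h4, if_pos]
        refine ⟨fun x => congrFun h4.2 x, fun x => congrFun h4.1 x, fun v hv => (h3 v hv).symm⟩
      · rw [if_neg h4, if_neg]
        rintro ⟨h5, h6, -⟩
        exact h4 ⟨funext h6, funext h5⟩
    · rw [if_neg h3, if_neg]
      rintro ⟨-, -, h7⟩
      exact h3 fun v hv => (h7 v hv).symm
  rw [h2]
  by_cases hk : Pool.Agent.H4R2.Ker (fun x : R => Pool.Agent.H4R2.toTorus L x) a b s t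
  · rw [if_pos hk, if_pos hk, one_mul, mul_comm]
  · rw [if_neg hk, if_neg hk, zero_mul, mul_zero]

end CQ947
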