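import Pool.Agent.R947.SH.SPC
import Pool.Agent.R947.SH.TI
import Pool.Agent.TH64.PerComb
import Pool.Agent.R947.PT.Foll
import Pool.Agent.TH235.PP.Spec

/-! # Project CQ (helper947): Q1 for all commuting interactions. Statements of the pieces -/

set_option autoImplicit false

open scoped BigOperators ComplexConjugate
open Finset Pool.Agent.TH235.PP
open Pool.Agent.TH64.PerNet (scal Followed)

namespace CQ947

open SH947 (ipr)

/-- BRG: interactions on finite sets of `ℤ²` are interactions on boxes. -/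
def S_BRG : Prop :=
  ∀ (d : ℕ) (B : Finset (ℤ × ℤ)) (h : Matrix (B → Fin d) (B → Fin d) ℂ),
    ∃ (R' : ℕ) (w : ℤ × ℤ) (h' : BoxOp d (R' + 1)) (L₁ : ℕ), (h.IsHermitian → h'.IsHermitian) ∧
      ∀ (L : ℕ) [NeZero L], L₁ ≤ L → ∀ u : Site L,
        Pool.Agent.H4R2.term B h L u = (term h' (u + ((w.1 : ZMod L), (w.2 : ZMod L))) : TorOp d L)

/-- RDM (from BRG): matrix elements of reduced states are expectations of operators on boxes. -/
def S_RDM : Prop :=
  ∀ (d : ℕ) (R : Finset (ℤ × ℤ)) (a b : R → Fin d), ∃ (k : ℕ) (O : BoxOp d (k + 1)) (w : ℤ × ℤ)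
    (L₁ : ℕ), ∀ (L : ℕ) [NeZero L], L₁ ≤ L → ∀ ψ : (Site L → Fin d) → ℂ,
      Pool.Agent.H4R2.rdm (fun x : R => Pool.Agent.H4R2.toTorus L x) ψ a b =
        ipr ψ ((term O ((w.1 : ZMod L), (w.2 : ZMod L)) : TorOp d L).mulVec ψ)

/-- EMB: an operator on a small box is an operator on a larger box. -/
def S_EMB : Prop :=
  ∀ (d a r : ℕ) (A : BoxOp d a) (x : ℕ × ℕ), x.1 + a ≤ r → x.2 + a ≤ r → ∃ A' : BoxOp d r,
    ∀ (L : ℕ) [NeZero L], r ≤ L → ∀ u : Site L,
      (term A' u : TorOp d L) = term A (u + ((x.1 : ZMod L), (x.2 : ZMod L)))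

/-- DIS: operators on disjoint boxes commute. -/
def S_DIS : Prop :=
  ∀ (d a c L : ℕ) [NeZero L] (A : BoxOp d a) (C : BoxOp d c) (u v : Site L), a ≤ L → c ≤ L →
    (∀ (x : Fin a × Fin a) (y : Fin c × Fin c), (sh u x : Site L) ≠ sh v y) →
      (term A u : TorOp d L) * term C v = term C v * term A u

/-- TOP (from S_SPC, EMB, DIS): the operators `Π` and `T = Π O Π` where `Π` is the product of the
spectral projections of all translates of `h` whose box lies in the `(k + 2 R' + 1)`-box. -/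
def S_TOP : Prop :=
  ∀ (d R' k : ℕ) (h : BoxOp d (R' + 1)) (O : BoxOp d (k + 1)) (μ : ℂ), h.IsHermitian →
    ∃ Pi T : BoxOp d (k + 2 * R' + 1), ∀ (L : ℕ) [NeZero L], k + 2 * R' + 1 ≤ L →
      (∀ u v : Site L, (term h u : TorOp d L) * term h v = term h v * term h u) →
      (∀ u v : Site L, (term h v : TorOp d L) * term T u = term T u * term h v) ∧
      (∀ u v : Site L, (term h v : TorOp d L) * term Pi u = term Pi u * term h v) ∧
      (∀ u : Site L, (term h u : TorOp d L) * term Pi u = μ • (term Pi u : TorOp d L)) ∧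
      (∀ (u : Site L) (ψ : (Site L → Fin d) → ℂ),
        (∀ v : Site L, (term h v : TorOp d L).mulVec ψ = μ • ψ) →
          (term Pi u : TorOp d L).mulVec ψ = ψ ∧
          ipr ψ ((term T u : TorOp d L).mulVec ψ) =
            ipr ψ ((term O (u + ((R' : ZMod L), (R' : ZMod L))) : TorOp d L).mulVec ψ))

/-- LAG: the spectrum of `T` is finite and there are polynomials `Z μ` of `T` which are `1` at the
eigenvalue `μ` and `0` at the other eigenvalues. -/
def S_LAG : Prop :=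
  ∀ (d r : ℕ) (T : BoxOp d r), ∃ (Λ : Finset ℂ) (Z : ℂ → BoxOp d r), ∀ (L : ℕ) [NeZero L],
    r ≤ L → ∀ u : Site L,
      (∀ (ψ : (Site L → Fin d) → ℂ) (lam : ℂ), ψ ≠ 0 →
        (term T u : TorOp d L).mulVec ψ = lam • ψ → lam ∈ Λ ∧
          ∀ μ : ℂ, (term (Z μ) u : TorOp d L).mulVec ψ = (if μ = lam then (1 : ℂ) else 0) • ψ) ∧
      (∀ a : TorOp d L, a * term T u = term T u * a →
        ∀ μ : ℂ, a * term (Z μ) u = term (Z μ) u * a)

/-- TIE: expectations in the simple eigenvectors are translation invariant. -/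
def S_TIE : Prop :=
  ∀ (d R k L : ℕ) [NeZero L] (h : BoxOp d R) (O : BoxOp d k) (ψ : (Site L → Fin d) → ℂ) (E : ℂ),
    ψ ≠ 0 → (ham h L).mulVec ψ = E • ψ →
      (∀ φ, (ham h L).mulVec φ = E • φ → ∃ c : ℂ, φ = c • ψ) → ∀ u v : Site L,
        ipr ψ ((term O u : TorOp d L).mulVec ψ) = ipr ψ ((term O v : TorOp d L).mulVec ψ)

/-- BND: trivial bound for the traces of ordered products. -/
def S_BND : Prop :=
  ∀ (d r : ℕ) (X : BoxOp d r), ∃ C : ℝ, 1 ≤ C ∧ ∀ (L : ℕ) [NeZero L]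
    (en : Fin (Fintype.card (Site L)) ≃ Site L),
      ‖Matrix.trace (op (fun b => (term X (en b) : TorOp d L)))‖ ≤ C ^ Fintype.card (Site L)

/-- TRE: evaluation of the traces of ordered products. -/
def S_TRE : Prop :=
  ∀ (d a r L : ℕ) [NeZero L] (h : BoxOp d a) (X : BoxOp d r) (μ : ℂ)
    (en : Fin (Fintype.card (Site L)) ≃ Site L),
    (∀ u v : Site L, (term h v : TorOp d L) * term X u = term X u * term h v) →
    (∀ u : Site L, (term h u : TorOp d L) * term X u = μ • (term X u : TorOp d L)) →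
    ((∀ φ : (Site L → Fin d) → ℂ, (∀ v : Site L, (term h v : TorOp d L).mulVec φ = μ • φ) → φ = 0) →
      Matrix.trace (op (fun b => (term X (en b) : TorOp d L))) = 0) ∧
    (∀ (ψ : (Site L → Fin d) → ℂ) (x : ℂ), ψ ≠ 0 →
      (∀ φ : (Site L → Fin d) → ℂ, (∀ v : Site L, (term h v : TorOp d L).mulVec φ = μ • φ) →
        ∃ c : ℂ, φ = c • ψ) →
      (∀ u : Site L, (term X u : TorOp d L).mulVec ψ = x • ψ) →
        Matrix.trace (op (fun b => (term X (en b) : TorOp d L))) = x ^ Fintype.card (Site L))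

/-- WIN: networks of finite range are tensor networks. -/
def S_WIN : Prop :=
  ∀ (S : Type) [Fintype S] (n : ℕ), ∃ D : ℕ, ∀ w : (Fin (n + 1) × Fin (n + 1) → S) → ℂ,
    ∃ W : Fin D → Fin D → Fin D → Fin D → ℂ, ∀ (L : ℕ) [NeZero L],
      scal W L = ∑ l : Site L → S, ∏ u : Site L, w (fun x => l (sh u x))

/-- A proper colouring: sites whose `r`-boxes meet have different colours. -/
def Proper (r : ℕ) {q L : ℕ} (c : Site L → Fin (q + 1)) : Prop :=
  ∀ u v : Site L, u ≠ v → (∃ x y : Fin r × Fin r, (sh u x : Site L) = sh v y) → c u ≠ c v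

/-- COL: proper colourings exist. -/
def S_COL : Prop :=
  ∀ r : ℕ, ∃ q : ℕ, ∀ (L : ℕ) [NeZero L], ∃ c : Site L → Fin (q + 1), Proper r c

open Classical in
/-- The product of the terms of colour `k`. -/
noncomputable def lay {d r q L : ℕ} [NeZero L] (X : BoxOp d r) (c : Site L → Fin (q + 1))
    (k : Fin (q + 1)) : TorOp d L := fun s t =>
  if ∀ x : Site L, (∀ u : Site L, c u = k → ∀ y : Fin r × Fin r, sh u y ≠ x) → s x = t x then
    ∏ u : Site L, (if c u = k then X (fun y => s (sh u y)) (fun y => t (sh u y)) else 1)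
  else 0

/-- ENU: for a proper colouring the product of the layers is an ordered product of all terms. -/
def S_ENU : Prop :=
  ∀ (d r q L : ℕ) [NeZero L] (c : Site L → Fin (q + 1)), r ≤ L → Proper r c →
    ∃ en : Fin (Fintype.card (Site L)) ≃ Site L, ∀ X : BoxOp d r,
      op (fun b => (term X (en b) : TorOp d L)) = op (fun k : Fin (q + 1) => lay X c k)

/-- TRC: trace of a product. -/
def S_TRC : Prop :=
  ∀ (S : Type) [Fintype S] [DecidableEq S] (q : ℕ) (M : Fin (q + 1) → Matrix S S ℂ),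
    Matrix.trace (op M) = ∑ s : Fin (q + 1) → S, ∏ k, M k (s k) (s (k + 1))

open Classical in
/-- WGT: the layers and the properness are given by local weights. -/
def S_WGT : Prop :=
  ∀ (d r' q : ℕ), ∃ w : BoxOp d (r' + 1) →
      (Fin (2 * r' + 1) × Fin (2 * r' + 1) → Fin (q + 1) × (Fin (q + 1) → Fin d)) → ℂ,
    ∀ (L : ℕ) [NeZero L], 2 * r' + 1 ≤ L → ∀ (X : BoxOp d (r' + 1)) (c : Site L → Fin (q + 1))
      (s : Fin (q + 1) → Site L → Fin d),
      ∏ u : Site L, w X (fun x => (c (sh u x), fun k => s k (sh u x))) =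
        if Proper (r' + 1) c then ∏ k, lay X c k (s k) (s (k + 1)) else 0

/-- NET (from WIN, COL, ENU, TRC, WGT): the sum over the proper colourings of the traces of the
ordered products is the value of a scalar network. -/
def S_NET : Prop :=
  ∀ (d r' : ℕ), ∃ (D L₁ : ℕ) (W : BoxOp d (r' + 1) → Fin D → Fin D → Fin D → Fin D → ℂ),
    ∀ (L : ℕ) [NeZero L], L₁ ≤ L → ∃ (m : ℕ) (en : Fin m → (Fin (Fintype.card (Site L)) ≃ Site L)),
      0 < m ∧ ∀ X : BoxOp d (r' + 1),
        scal (W X) L = ∑ i, Matrix.trace (op (fun b => (term X (en i b) : TorOp d L)))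

/-- Unique ground states of commuting interactions. -/
def Fam {d R' : ℕ} (h : BoxOp d (R' + 1)) (ψ : ∀ L : ℕ, (Site L → Fin d) → ℂ) (L₀ : ℕ) : Prop :=
  h.IsHermitian ∧ ∀ (L : ℕ) [NeZero L], L₀ ≤ L →
    (∀ u v : Site L, (term h u : TorOp d L) * term h v = term h v * term h u) ∧
    normSq (ψ L) = 1 ∧ ∃ E : ℝ, (ham h L).mulVec (ψ L) = (E : ℂ) • ψ L ∧
      (∀ φ, (ham h L).mulVec φ = (E : ℂ) • φ → ∃ c : ℂ, φ = c • ψ L) ∧
      ∀ (E' : ℝ) (φ : (Site L → Fin d) → ℂ), φ ≠ 0 → (ham h L).mulVec φ = (E' : ℂ) • φ → E ≤ E'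

open Classical in
/-- OPS (from TOP, LAG): the operators `X j`, one for each pair `j` of an eigenvalue `en j` of `h` and
an eigenvalue `val j` of `T`. -/
def S_OPS : Prop :=
  ∀ (d R' k : ℕ) (h : BoxOp d (R' + 1)) (O : BoxOp d (k + 1)), h.IsHermitian →
    ∃ (J : Type) (_ : Fintype J) (en : J → ℝ) (val : J → ℂ) (X : J → BoxOp d (k + 2 * R' + 1)),
      (∀ i j, en i = en j → val i = val j → i = j) ∧
      ∀ (L : ℕ) [NeZero L], k + 2 * R' + 1 ≤ L →
      (∀ u v : Site L, (term h u : TorOp d L) * term h v = term h v * term h u) →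
      (∀ (j : J) (u v : Site L), (term h v : TorOp d L) * term (X j) u = term (X j) u * term h v) ∧
      (∀ (j : J) (u : Site L), (term h u : TorOp d L) * term (X j) u =
        (en j : ℂ) • (term (X j) u : TorOp d L)) ∧
      (∀ (ψ : (Site L → Fin d) → ℂ) (μ E : ℂ), normSq ψ = 1 →
        (∀ v : Site L, (term h v : TorOp d L).mulVec ψ = μ • ψ) →
        (ham h L).mulVec ψ = E • ψ →
        (∀ φ, (ham h L).mulVec φ = E • φ → ∃ c : ℂ, φ = c • ψ) →
        ∃ j₀ : J, (en j₀ : ℂ) = μ ∧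
          (∀ u : Site L, ipr ψ ((term O u : TorOp d L).mulVec ψ) = val j₀) ∧
          ∀ (j : J) (u : Site L), en j = en j₀ → (term (X j) u : TorOp d L).mulVec ψ =
            (if j = j₀ then (1 : ℂ) else 0) • ψ)

/-- FOL (from S_TRI, OPS, TRE, BND, NET): expectations of local operators are followed by scalar
networks. -/
def S_FOL : Prop :=
  ∀ (d R' : ℕ) (h : BoxOp d (R' + 1)) (ψ : ∀ L : ℕ, (Site L → Fin d) → ℂ) (L₀ : ℕ), Fam h ψ L₀ →
    ∀ (k : ℕ) (O : BoxOp d (k + 1)), ∃ (J : Type) (_ : Fintype J) (σ : ℕ → J) (val : J → ℂ)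
      (D L₁ : ℕ), Followed σ D ∧ ∀ (L : ℕ) [NeZero L], L₁ ≤ L → ∀ u : Site L,
        ipr (ψ L) ((term O u : TorOp d L).mulVec (ψ L)) = val (σ L)

end CQ947
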