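import Pool.Agent.R947.CQ.Stm

/-! # TOP: the operators `Π` and `T = Π O Π` -/

set_option autoImplicit false

open scoped BigOperators ComplexConjugate
open Finset Pool.Agent.TH235.PP

namespace CQ947

open SH947 (ipr)

namespace TopAux

open SH947.SpcAux

variable {S : Type} [Fintype S] [DecidableEq S]

lemma ipr_herm (A : Matrix S S ℂ) (hA : A.IsHermitian) (ψ : S → ℂ) (h : A.mulVec ψ = ψ)
    (φ : S → ℂ) : ipr ψ (A.mulVec φ) = ipr ψ φ := by
  have h1 : ∀ a b : S → ℂ, ipr a b = dotProduct (star a) b := fun a b => rfl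
  rw [h1, h1, Matrix.dotProduct_mulVec]
  congr 1
  have h2 : star (A.conjTranspose.mulVec ψ) = Matrix.vecMul (star ψ) A := by
    rw [Matrix.star_mulVec, Matrix.conjTranspose_conjTranspose]
  rw [← h2, hA.eq, h]

lemma prod_fix (l : List (Matrix S S ℂ)) (ψ : S → ℂ) (h : ∀ A ∈ l, A.mulVec ψ = ψ) :
    l.prod.mulVec ψ = ψ := by
  induction l with
  | nil => simp
  | cons a l ih =>
    rw [List.prod_cons, ← Matrix.mulVec_mulVec, ih fun A hA => h A (List.mem_cons_of_mem _ hA),
      h a List.mem_cons_self]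

lemma prod_ipr (l : List (Matrix S S ℂ)) (ψ : S → ℂ) (h : ∀ A ∈ l, A.mulVec ψ = ψ)
    (hh : ∀ A ∈ l, A.IsHermitian) (φ : S → ℂ) : ipr ψ (l.prod.mulVec φ) = ipr ψ φ := by
  induction l with
  | nil => simp
  | cons a l ih =>
    rw [List.prod_cons, ← Matrix.mulVec_mulVec,
      ipr_herm a (hh a List.mem_cons_self) ψ (h a List.mem_cons_self),
      ih (fun A hA => h A (List.mem_cons_of_mem _ hA)) fun A hA => hh A (List.mem_cons_of_mem _ hA)]

lemma prod_commL (l : List (Matrix S S ℂ)) (B : Matrix S S ℂ) (h : ∀ A ∈ l, B * A = A * B) :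
    B * l.prod = l.prod * B := by
  induction l with
  | nil => simp
  | cons a l ih =>
    rw [List.prod_cons, ← mul_assoc, h a List.mem_cons_self, mul_assoc,
      ih (fun A hA => h A (List.mem_cons_of_mem _ hA)), mul_assoc]

lemma prod_eig (l : List (Matrix S S ℂ)) (B : Matrix S S ℂ) (μ : ℂ) (h : ∀ A ∈ l, B * A = A * B)
    (h2 : ∃ A ∈ l, B * A = μ • A) : B * l.prod = μ • l.prod := by
  induction l with
  | nil => simp at h2
  | cons a l ih =>
    rw [List.prod_cons]
    obtain ⟨A, hA, hB⟩ := h2
    rcases List.mem_cons.mp hA with rfl | hA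
    · rw [← mul_assoc, hB, smul_mul_assoc]
    · rw [← mul_assoc, h a List.mem_cons_self, mul_assoc,
        ih (fun A hA => h A (List.mem_cons_of_mem _ hA)) ⟨A, hA, hB⟩, mul_smul_comm]

end TopAux

open TopAux SH947.SpcAux in
/-- TOP -/
theorem t_TOP (hS : SH947.S_SPC) (hE : S_EMB) (hD : S_DIS) : S_TOP := by
  intro d R' k h O μ hh
  obtain ⟨p, hp⟩ := hS d R' h hh μ
  have hE1 : ∀ x : Fin (k + R' + 1) × Fin (k + R' + 1), ∃ A' : BoxOp d (k + 2 * R' + 1),
      ∀ (L : ℕ) [NeZero L], k + 2 * R' + 1 ≤ L → ∀ u : Site L,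
        (term A' u : TorOp d L) = term p (u + (((x.1 : ℕ) : ZMod L), ((x.2 : ℕ) : ZMod L))) := by
    intro x
    have h1 := x.1.2
    have h2 := x.2.2
    exact hE d (R' + 1) (k + 2 * R' + 1) p ((x.1 : ℕ), (x.2 : ℕ)) (by simp only; omega)
      (by simp only; omega)
  choose Q hQ using hE1
  obtain ⟨O', hO'⟩ := hE d (k + 1) (k + 2 * R' + 1) O (R', R') (by simp only; omega)
    (by simp only; omega)
  let l : List (BoxOp d (k + 2 * R' + 1)) :=
    ((Finset.univ : Finset (Fin (k + R' + 1) × Fin (k + R' + 1))).toList).map Q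
  refine ⟨l.prod, l.prod * O' * l.prod, ?_⟩
  intro L _ hL hcomm
  obtain ⟨hher, heig, hfix, hcp⟩ := hp L (by omega)
  have hcp := hcp hcomm
  -- the list on the torus
  let lt : Site L → List (TorOp d L) := fun u =>
    ((Finset.univ : Finset (Fin (k + R' + 1) × Fin (k + R' + 1))).toList).map
      fun x => (term p (u + (((x.1 : ℕ) : ZMod L), ((x.2 : ℕ) : ZMod L))) : TorOp d L)
  have hPi : ∀ u : Site L, (term l.prod u : TorOp d L) = (lt u).prod := by
    intro u
    have h1 := map_list_prod (termHom (d := d) hL u) l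
    rw [termHom_apply] at h1
    rw [h1, List.map_map]
    congr 1
    apply List.map_congr_left
    intro x _
    exact hQ x L hL u
  have hmem : ∀ (u : Site L) (A : TorOp d L), A ∈ lt u → ∃ v : Site L, A = term p v := by
    intro u A hA
    obtain ⟨x, -, rfl⟩ := List.mem_map.mp hA
    exact ⟨_, rfl⟩
  have hT : ∀ u : Site L, (term (l.prod * O' * l.prod) u : TorOp d L) =
      (lt u).prod * term O (u + ((R' : ZMod L), (R' : ZMod L))) * (lt u).prod := by
    intro u
    rw [term_mul hL, term_mul hL, hPi u, hO' L hL u]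
  have hcPi : ∀ u v : Site L, (term h v : TorOp d L) * (lt u).prod = (lt u).prod * term h v := by
    intro u v
    apply prod_commL
    intro A hA
    obtain ⟨w, rfl⟩ := hmem u A hA
    exact hcp v w
  have hePi : ∀ (u : Site L) (x : Fin (k + R' + 1) × Fin (k + R' + 1)),
      (term h (u + (((x.1 : ℕ) : ZMod L), ((x.2 : ℕ) : ZMod L))) : TorOp d L) * (lt u).prod =
        μ • (lt u).prod := by
    intro u x
    apply prod_eig
    · intro A hA
      obtain ⟨w, rfl⟩ := hmem u A hA
      exact hcp _ w
    · refine ⟨_, List.mem_map.mpr ⟨x, Finset.mem_toList.mpr (Finset.mem_univ x), rfl⟩, ?_⟩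
      exact heig _
  refine ⟨?_, ?_, ?_, ?_⟩
  · intro u v
    rw [hT]
    by_cases hv : ∃ x : Fin (k + R' + 1) × Fin (k + R' + 1),
        v = u + (((x.1 : ℕ) : ZMod L), ((x.2 : ℕ) : ZMod L))
    · obtain ⟨x, rfl⟩ := hv
      have h1 := hePi u x
      have h2 := hcPi u (u + (((x.1 : ℕ) : ZMod L), ((x.2 : ℕ) : ZMod L)))
      have h3 : (lt u).prod * (term h (u + (((x.1 : ℕ) : ZMod L), ((x.2 : ℕ) : ZMod L))) : TorOp d L)
          = μ • (lt u).prod := by rw [← h2, h1]
      rw [← mul_assoc, ← mul_assoc, h1, mul_assoc (_ * _) (lt u).prod, h3, smul_mul_assoc,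
        smul_mul_assoc, mul_smul_comm]
    · have hO : (term h v : TorOp d L) * term O (u + ((R' : ZMod L), (R' : ZMod L))) =
          term O (u + ((R' : ZMod L), (R' : ZMod L))) * term h v := by
        symm
        apply hD d (k + 1) (R' + 1) L O h (u + ((R' : ZMod L), (R' : ZMod L))) v (by omega)
          (by omega)
        intro x y hxy
        apply hv
        have hx1 := x.1.2
        have hx2 := x.2.2
        have hy1 := y.1.2
        have hy2 := y.2.2
        refine ⟨(⟨R' + (x.1 : ℕ) - (y.1 : ℕ), by omega⟩, ⟨R' + (x.2 : ℕ) - (y.2 : ℕ), by omega⟩), ?_⟩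
        have e1 := congrArg Prod.fst hxy
        have e2 := congrArg Prod.snd hxy
        simp only [sh, Prod.fst_add, Prod.snd_add] at e1 e2
        refine Prod.ext ?_ ?_
        · simp only [Prod.fst_add]
          rw [Nat.cast_sub (by omega), Nat.cast_add]
          linear_combination -e1
        · simp only [Prod.snd_add]
          rw [Nat.cast_sub (by omega), Nat.cast_add]
          linear_combination -e2
      have h2 := hcPi u v
      calc (term h v : TorOp d L) *
            ((lt u).prod * term O (u + ((R' : ZMod L), (R' : ZMod L))) * (lt u).prod)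
          = ((term h v : TorOp d L) * (lt u).prod) *
            term O (u + ((R' : ZMod L), (R' : ZMod L))) * (lt u).prod := by
              simp only [mul_assoc]
        _ = (lt u).prod * ((term h v : TorOp d L) *
            term O (u + ((R' : ZMod L), (R' : ZMod L)))) * (lt u).prod := by
              rw [h2]; simp only [mul_assoc]
        _ = (lt u).prod * term O (u + ((R' : ZMod L), (R' : ZMod L))) *
            ((term h v : TorOp d L) * (lt u).prod) := by
              rw [hO]; simp only [mul_assoc]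
        _ = (lt u).prod * term O (u + ((R' : ZMod L), (R' : ZMod L))) * (lt u).prod *
            term h v := by
              rw [h2]; simp only [mul_assoc]
  · intro u v
    rw [hPi]
    exact hcPi u v
  · intro u
    rw [hPi]
    have h1 := hePi u (0, 0)
    have h2 : u + ((((0 : Fin (k + R' + 1)) : ℕ) : ZMod L), (((0 : Fin (k + R' + 1)) : ℕ) : ZMod L))
        = u := by
      refine Prod.ext ?_ ?_ <;> simp
    simp only at h1
    rw [h2] at h1
    exact h1
  · intro u ψ hψ
    have hf : ∀ A ∈ lt u, A.mulVec ψ = ψ := by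
      intro A hA
      obtain ⟨w, rfl⟩ := hmem u A hA
      exact hfix w ψ (hψ w)
    have hhm : ∀ A ∈ lt u, A.IsHermitian := by
      intro A hA
      obtain ⟨w, rfl⟩ := hmem u A hA
      exact hher w
    refine ⟨?_, ?_⟩
    · rw [hPi]
      exact prod_fix _ ψ hf
    · rw [hT, ← Matrix.mulVec_mulVec, ← Matrix.mulVec_mulVec, prod_fix _ ψ hf,
        prod_ipr _ ψ hf hhm]

end CQ947
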