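import Pool.Agent.R947.CQ.Stm

/-! # Project CQ (helper947), piece TRC: trace of a product -/

set_option autoImplicit false

open scoped BigOperators ComplexConjugate
open Finset Pool.Agent.TH235.PP

namespace CQ947

theorem TRC_path {S : Type} [Fintype S] [DecidableEq S] (q : ℕ) :
    ∀ (M : Fin (q + 1) → Matrix S S ℂ) (a b : S), op M a b = ∑ s : Fin q → S,
      ∏ k : Fin (q + 1),
        M k ((Fin.cons a s : Fin (q + 1) → S) k) ((Fin.snoc s b : Fin (q + 1) → S) k) := by
  induction q with
  | zero =>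
    intro M a b
    rw [op_succ, op_zero, mul_one]
    simp [Fin.snoc]
  | succ q ih =>
    intro M a b
    rw [op_succ, Matrix.mul_apply, ← (Fin.consEquiv fun _ : Fin (q + 1) => S).sum_comp,
      Fintype.sum_prod_type]
    refine Finset.sum_congr rfl fun c _ => ?_
    rw [ih, Finset.mul_sum]
    refine Finset.sum_congr rfl fun s _ => ?_
    rw [Fin.prod_univ_succ (n := q + 1)]
    have h1 : (Fin.snoc (Fin.consEquiv (fun _ : Fin (q + 1) => S) (c, s)) b :
        Fin (q + 1 + 1) → S) = Fin.cons c (Fin.snoc s b : Fin (q + 1) → S) := by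
      have := Fin.cons_snoc_eq_snoc_cons (n := q) (β := S) c s b
      exact this.symm
    rw [h1]
    congr 1

theorem t_TRC : S_TRC := by
  intro S _ _ q M
  rw [Matrix.trace, ← (Fin.consEquiv fun _ : Fin (q + 1) => S).sum_comp, Fintype.sum_prod_type]
  refine Finset.sum_congr rfl fun a _ => ?_
  rw [Matrix.diag_apply, TRC_path]
  refine Finset.sum_congr rfl fun s _ => ?_
  refine Finset.prod_congr rfl fun k _ => ?_
  have h1 : (Fin.snoc s a : Fin (q + 1) → S) k = (Fin.cons a s : Fin (q + 1) → S) (k + 1) := by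
    refine Fin.lastCases ?_ (fun j => ?_) k
    · rw [Fin.snoc_last, Fin.last_add_one, Fin.cons_zero]
    · rw [Fin.snoc_castSucc, Fin.coeSucc_eq_succ, Fin.cons_succ]
  rw [h1]
  rfl

end CQ947
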