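import Pool.Agent.R947.CQ.Stm

/-! Project CQ (helper947), piece TRE by helper334: traces of ordered products. -/

set_option autoImplicit false

open scoped BigOperators ComplexConjugate
open Finset Pool.Agent.TH235.PP

namespace CQ947

namespace TRE

lemma mul_op {S : Type} [Fintype S] [DecidableEq S] (a : Matrix S S ℂ) (μ : ℂ) {n : ℕ}
    (z : Fin n → Matrix S S ℂ) (hc : ∀ b, a * z b = z b * a) (i : Fin n) (hi : a * z i = μ • z i) :
    a * op z = μ • op z := by
  induction n with
  | zero => exact i.elim0
  | succ n ih =>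
    rw [op_succ]
    rcases Fin.eq_zero_or_eq_succ i with rfl | ⟨j, rfl⟩
    · rw [← mul_assoc, hi, smul_mul_assoc]
    · rw [← mul_assoc, hc 0, mul_assoc, ih (fun b => z b.succ) (fun b => hc b.succ) j hi,
        mul_smul_comm]

lemma op_mulVec {S : Type} [Fintype S] [DecidableEq S] (v : S → ℂ) (x : ℂ) {n : ℕ}
    (z : Fin n → Matrix S S ℂ) (hz : ∀ b, (z b).mulVec v = x • v) :
    (op z).mulVec v = x ^ n • v := by
  induction n with
  | zero => rw [op_zero, Matrix.one_mulVec, pow_zero, one_smul]
  | succ n ih =>
    rw [op_succ, ← Matrix.mulVec_mulVec, ih (fun b => z b.succ) (fun b => hz b.succ),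
      Matrix.mulVec_smul, hz 0, smul_smul, pow_succ]

end TRE

open TRE in
theorem t_TRE : S_TRE := by
  classical
  intro d a r L _ h X μ en hcomm heig
  set M : TorOp d L := op (fun b => (term X (en b) : TorOp d L)) with hM
  have hv : ∀ v : Site L, (term h v : TorOp d L) * M = μ • M := by
    intro v
    have hi := heig v
    refine mul_op (term h v : TorOp d L) μ (fun b => (term X (en b) : TorOp d L))
      (fun b => hcomm (en b) v) (en.symm v) ?_
    simp only [Equiv.apply_symm_apply]
    exact hi
  have hcol : ∀ t : Site L → Fin d, ∀ v : Site L,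
      (term h v : TorOp d L).mulVec (fun s => M s t) = μ • (fun s => M s t) := by
    intro t v
    funext s
    have := congrFun (congrFun (hv v) s) t
    simp only [Matrix.mul_apply, Matrix.smul_apply] at this
    simpa [Matrix.mulVec, dotProduct] using this
  refine ⟨?_, ?_⟩
  · intro h0
    have hz : ∀ t s, M s t = 0 := fun t s => congrFun (h0 _ (hcol t)) s
    simp only [Matrix.trace, Matrix.diag_apply]
    exact Finset.sum_eq_zero fun t _ => hz t t
  · intro ψ x hψ hs hx
    choose w hw using fun t => hs _ (hcol t)
    have hw' : ∀ t s, M s t = w t * ψ s := fun t s => congrFun (hw t) s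
    have h1 : M.mulVec ψ = x ^ Fintype.card (Site L) • ψ :=
      op_mulVec ψ x (fun b => (term X (en b) : TorOp d L)) (fun b => hx (en b))
    obtain ⟨s₀, hs₀⟩ := Function.ne_iff.mp hψ
    have h2 := congrFun h1 s₀
    have h3 : M.mulVec ψ s₀ = Matrix.trace M * ψ s₀ := by
      simp only [Matrix.mulVec, dotProduct, Matrix.trace, Matrix.diag_apply, hw']
      rw [Finset.sum_mul]
      exact Finset.sum_congr rfl fun t _ => by ring
    rw [h3] at h2
    exact mul_right_cancel₀ hs₀ h2

end CQ947
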