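import Pool.Agent.R947.CQ.Stm

/-! # WGT: local weights -/

set_option autoImplicit false

open scoped BigOperators ComplexConjugate
open Finset Pool.Agent.TH235.PP

namespace CQ947

namespace WgtAux

/-- small box in the window -/
def e0 {r' : ℕ} (x : Fin (r' + 1) × Fin (r' + 1)) : Fin (2 * r' + 1) × Fin (2 * r' + 1) :=
  (⟨x.1, by have := x.1.2; omega⟩, ⟨x.2, by have := x.2.2; omega⟩)

/-- the centre of the window -/
def o (r' : ℕ) : Fin (2 * r' + 1) × Fin (2 * r' + 1) := (⟨r', by omega⟩, ⟨r', by omega⟩)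

def rv {r' : ℕ} (x : Fin (r' + 1) × Fin (r' + 1)) : Fin (r' + 1) × Fin (r' + 1) :=
  (⟨r' - x.1, by omega⟩, ⟨r' - x.2, by omega⟩)

lemma sh_e0 {r' L : ℕ} [NeZero L] (u : Site L) (x : Fin (r' + 1) × Fin (r' + 1)) :
    (sh u (e0 x) : Site L) = sh u x := rfl

lemma rv_rv {r' : ℕ} (x : Fin (r' + 1) × Fin (r' + 1)) : rv (rv x) = x := by
  have h1 := x.1.2
  have h2 := x.2.2
  refine Prod.ext (Fin.ext ?_) (Fin.ext ?_)
  · show r' - (r' - (x.1 : ℕ)) = x.1
    omega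
  · show r' - (r' - (x.2 : ℕ)) = x.2
    omega

/-- general criterion -/
lemma sh_eq {a b L : ℕ} [NeZero L] (u v : Site L) (x : Fin a × Fin a) (y : Fin b × Fin b) :
    (sh u x : Site L) = sh v y ↔
      (u.1 + ((x.1 : ℕ) : ZMod L) = v.1 + ((y.1 : ℕ) : ZMod L) ∧
        u.2 + ((x.2 : ℕ) : ZMod L) = v.2 + ((y.2 : ℕ) : ZMod L)) := by
  unfold sh
  rw [Prod.mk.injEq]

lemma cr {r' L : ℕ} (i : Fin (r' + 1)) :
    (((r' - (i : ℕ) : ℕ) : ZMod L)) = (r' : ZMod L) - ((i : ℕ) : ZMod L) := by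
  rw [Nat.cast_sub (Nat.lt_succ_iff.1 i.2)]

lemma H1 {r' L : ℕ} [NeZero L] (u v : Site L) (y : Fin (r' + 1) × Fin (r' + 1)) :
    (sh v y : Site L) = sh u (o r') ↔ v = sh u (rv y) := by
  rw [sh_eq]
  unfold sh rv o
  simp only [cr]
  constructor
  · rintro ⟨h1, h2⟩
    refine Prod.ext ?_ ?_
    · show v.1 = u.1 + ((r' : ZMod L) - ((y.1 : ℕ) : ZMod L))
      linear_combination h1
    · show v.2 = u.2 + ((r' : ZMod L) - ((y.2 : ℕ) : ZMod L))
      linear_combination h2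
  · intro h
    rw [h]
    constructor
    · show u.1 + ((r' : ZMod L) - ((y.1 : ℕ) : ZMod L)) + ((y.1 : ℕ) : ZMod L) = u.1 + (r' : ZMod L)
      ring
    · show u.2 + ((r' : ZMod L) - ((y.2 : ℕ) : ZMod L)) + ((y.2 : ℕ) : ZMod L) = u.2 + (r' : ZMod L)
      ring

lemma base (r' : ℕ) {L : ℕ} [NeZero L] (x : Site L) : ∃ u : Site L, sh u (o r') = x := by
  refine ⟨(x.1 - (r' : ZMod L), x.2 - (r' : ZMod L)), ?_⟩
  unfold sh o
  refine Prod.ext ?_ ?_
  · show x.1 - (r' : ZMod L) + (r' : ZMod L) = x.1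
    ring
  · show x.2 - (r' : ZMod L) + (r' : ZMod L) = x.2
    ring

lemma allB {d r' q L : ℕ} [NeZero L] (c : Site L → Fin (q + 1))
    (s : Fin (q + 1) → Site L → Fin d) :
    (∀ u : Site L, ∀ k, (∀ x : Fin (r' + 1) × Fin (r' + 1), c (sh u (e0 x)) ≠ k) →
      s k (sh u (o r')) = s (k + 1) (sh u (o r'))) ↔
    ∀ k, ∀ x : Site L, (∀ u : Site L, c u = k → ∀ y : Fin (r' + 1) × Fin (r' + 1), sh u y ≠ x) →
      s k x = s (k + 1) x := by
  constructor
  · intro h k x hx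
    obtain ⟨u, rfl⟩ := base r' x
    apply h u k
    intro x' hc
    rw [sh_e0] at hc
    apply hx _ hc (rv x')
    rw [H1, rv_rv]
  · intro h u k hx
    apply h k
    intro v hv y hy
    rw [H1] at hy
    apply hx (rv y)
    rw [sh_e0, ← hy]
    exact hv

lemma allC {r' q L : ℕ} [NeZero L] (hL : 2 * r' + 1 ≤ L) (c : Site L → Fin (q + 1)) :
    (∀ u : Site L, ∀ x : Fin (2 * r' + 1) × Fin (2 * r' + 1), x ≠ o r' →
      c (sh u (o r')) ≠ c (sh u x)) ↔ Proper (r' + 1) c := by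
  constructor
  · intro h u v huv hxy
    obtain ⟨x, y, hxy⟩ := hxy
    obtain ⟨b, rfl⟩ := base r' u
    have hx1 := x.1.2
    have hx2 := x.2.2
    have hy1 := y.1.2
    have hy2 := y.2.2
    let z : Fin (2 * r' + 1) × Fin (2 * r' + 1) :=
      (⟨r' + x.1 - y.1, by omega⟩, ⟨r' + x.2 - y.2, by omega⟩)
    have c1 : (((r' + (x.1 : ℕ) - (y.1 : ℕ) : ℕ) : ZMod L))
        = (r' : ZMod L) + ((x.1 : ℕ) : ZMod L) - ((y.1 : ℕ) : ZMod L) := by
      rw [Nat.cast_sub (by omega), Nat.cast_add]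
    have c2 : (((r' + (x.2 : ℕ) - (y.2 : ℕ) : ℕ) : ZMod L))
        = (r' : ZMod L) + ((x.2 : ℕ) : ZMod L) - ((y.2 : ℕ) : ZMod L) := by
      rw [Nat.cast_sub (by omega), Nat.cast_add]
    rw [sh_eq] at hxy
    have hz : sh b z = v := by
      refine Prod.ext ?_ ?_
      · show b.1 + (((r' + (x.1 : ℕ) - (y.1 : ℕ) : ℕ) : ZMod L)) = v.1
        rw [c1]
        have h1 : b.1 + (r' : ZMod L) + ((x.1 : ℕ) : ZMod L) = v.1 + ((y.1 : ℕ) : ZMod L) := hxy.1
        linear_combination h1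
      · show b.2 + (((r' + (x.2 : ℕ) - (y.2 : ℕ) : ℕ) : ZMod L)) = v.2
        rw [c2]
        have h1 : b.2 + (r' : ZMod L) + ((x.2 : ℕ) : ZMod L) = v.2 + ((y.2 : ℕ) : ZMod L) := hxy.2
        linear_combination h1
    rw [← hz]
    apply h b z
    intro hzo
    apply huv
    rw [← hz, hzo]
  · intro h u x hx
    have hx1 := x.1.2
    have hx2 := x.2.2
    apply h
    · intro he
      exact hx (SH947.SpcAux.sh_inj hL u he).symm
    · refine ⟨(⟨x.1 - r', by omega⟩, ⟨x.2 - r', by omega⟩), (⟨r' - x.1, by omega⟩, ⟨r' - x.2, by omega⟩), ?_⟩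
      rw [sh_eq]
      constructor
      · show u.1 + (r' : ZMod L) + (((x.1 : ℕ) - r' : ℕ) : ZMod L)
          = u.1 + ((x.1 : ℕ) : ZMod L) + ((r' - (x.1 : ℕ) : ℕ) : ZMod L)
        have : ((r' + ((x.1 : ℕ) - r') : ℕ) : ZMod L) = (((x.1 : ℕ) + (r' - (x.1 : ℕ)) : ℕ) : ZMod L) := by
          congr 1; omega
        rw [Nat.cast_add, Nat.cast_add] at this
        linear_combination this
      · show u.2 + (r' : ZMod L) + (((x.2 : ℕ) - r' : ℕ) : ZMod L)
          = u.2 + ((x.2 : ℕ) : ZMod L) + ((r' - (x.2 : ℕ) : ℕ) : ZMod L)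
        have : ((r' + ((x.2 : ℕ) - r') : ℕ) : ZMod L) = (((x.2 : ℕ) + (r' - (x.2 : ℕ)) : ℕ) : ZMod L) := by
          congr 1; omega
        rw [Nat.cast_add, Nat.cast_add] at this
        linear_combination this

end WgtAux

open WgtAux in
theorem t_WGT : S_WGT := by
  classical
  intro d r' q
  refine ⟨fun X φ =>
    (X (fun y => (φ (e0 y)).2 (φ (0, 0)).1) (fun y => (φ (e0 y)).2 ((φ (0, 0)).1 + 1))) *
    ((if ∀ k, (∀ x : Fin (r' + 1) × Fin (r' + 1), (φ (e0 x)).1 ≠ k) →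
        (φ (o r')).2 k = (φ (o r')).2 (k + 1) then (1 : ℂ) else 0) *
     (if ∀ x, x ≠ o r' → (φ (o r')).1 ≠ (φ x).1 then (1 : ℂ) else 0)), ?_⟩
  intro L _ hL X c s
  have h00 : ∀ u : Site L, sh u ((0 : Fin (2 * r' + 1)), (0 : Fin (2 * r' + 1))) = u := by
    intro u
    unfold sh
    simp
  simp only [h00, sh_e0]
  rw [Finset.prod_mul_distrib, Finset.prod_mul_distrib]
  have hB : ∏ u : Site L, (if ∀ k, (∀ x : Fin (r' + 1) × Fin (r' + 1), c (sh u x) ≠ k) →
        s k (sh u (o r')) = s (k + 1) (sh u (o r')) then (1 : ℂ) else 0)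
      = if ∀ k, ∀ x : Site L, (∀ u : Site L, c u = k → ∀ y : Fin (r' + 1) × Fin (r' + 1), sh u y ≠ x) →
      s k x = s (k + 1) x then 1 else 0 := by
    rw [Finset.prod_ite_zero]
    simp only [Finset.mem_univ, true_implies, Finset.prod_const_one]
    exact if_congr (allB c s) rfl rfl
  have hC : ∏ u : Site L, (if ∀ x, x ≠ o r' → c (sh u (o r')) ≠ c (sh u x) then (1 : ℂ) else 0)
      = if Proper (r' + 1) c then 1 else 0 := by
    rw [Finset.prod_ite_zero]
    simp only [Finset.mem_univ, true_implies, Finset.prod_const_one]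
    exact if_congr (allC hL c) rfl rfl
  refine (congrArg₂ (· * ·) rfl (congrArg₂ (· * ·)
    ((Finset.prod_congr rfl fun u _ => if_congr Iff.rfl rfl rfl).trans hB)
    ((Finset.prod_congr rfl fun u _ => if_congr Iff.rfl rfl rfl).trans hC))).trans ?_
  show _ * (_ * _) = _
  have hlay : ∏ k, lay X c k (s k) (s (k + 1))
      = if ∀ k, ∀ x : Site L, (∀ u : Site L, c u = k → ∀ y : Fin (r' + 1) × Fin (r' + 1), sh u y ≠ x) →
      s k x = s (k + 1) x then
        ∏ u : Site L, X (fun y => s (c u) (sh u y)) (fun y => s (c u + 1) (sh u y)) else 0 := by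
    unfold lay
    rw [Finset.prod_ite_zero]
    simp only [Finset.mem_univ, true_implies]
    refine if_congr Iff.rfl ?_ rfl
    rw [Finset.prod_comm]
    refine Finset.prod_congr rfl fun u _ => ?_
    rw [Finset.prod_ite_eq Finset.univ (c u)
      (fun k => X (fun y => s k (sh u y)) (fun y => s (k + 1) (sh u y)))]
    simp
  rw [hlay]
  split_ifs <;> simp

end CQ947
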