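import Pool.Agent.R947.CQ.Stm

/-! # Piece WIN of project CQ: networks of finite range are tensor networks -/

set_option autoImplicit false

open scoped BigOperators
open Finset Pool.Agent.TH235.PP
open Pool.Agent.TH64.PerNet (scal Followed)

namespace CQ947

namespace WINaux

open Classical in
/-- the tensor -/
noncomputable def ten {S : Type} (n : ℕ) (w : (Fin (n + 1) × Fin (n + 1) → S) → ℂ)
    (l r u m : Fin (n + 1) × Fin (n + 1) → S) : ℂ :=
  if r = u ∧ (∀ (i j : Fin (n + 1)) (hi : i.1 + 1 < n + 1), l (⟨i.1 + 1, hi⟩, j) = r (i, j)) ∧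
    (∀ (i j : Fin (n + 1)) (hj : j.1 + 1 < n + 1), m (i, ⟨j.1 + 1, hj⟩) = r (i, j)) then w r else 0

/-- the windows of a labelling -/
def wndw {S : Type} (n L : ℕ) (l : Site L → S) : Site L → (Fin (n + 1) × Fin (n + 1) → S) :=
  fun x a => l (sh x a)

lemma sh_zero {n L : ℕ} (x : Site L) : sh x ((0, 0) : Fin (n + 1) × Fin (n + 1)) = x := by
  unfold sh; simp

lemma wndw_inj {S : Type} (n L : ℕ) : Function.Injective (wndw (S := S) n L) := by
  intro l l' h
  funext x
  have := congrFun (congrFun h x) (0, 0)
  unfold wndw at this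
  rwa [sh_zero] at this

end WINaux

open WINaux

theorem t_WIN : S_WIN := by
  classical
  intro S _ n
  let K := Fin (n + 1) × Fin (n + 1) → S
  refine ⟨Fintype.card K, fun w => ?_⟩
  let e : Fin (Fintype.card K) ≃ K := (Fintype.equivFin K).symm
  refine ⟨fun l r u m => ten n w (e l) (e r) (e u) (e m), fun L _ => ?_⟩
  rw [Pool.Agent.TH64.PerNet.scal_equiv e (ten n w) L]
  unfold scal
  rw [← Fintype.sum_prod_type' (fun (h v : Site L → K) =>
    ∏ x : Site L, ten n w (h (x.1 - 1, x.2)) (h x) (v x) (v (x.1, x.2 - 1)))]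
  symm
  refine Fintype.sum_of_injective (fun l : Site L → S => (wndw n L l, wndw n L l)) ?_ _ _ ?_ ?_
  · intro l l' h
    exact wndw_inj n L (congrArg Prod.fst h)
  · rintro ⟨h, v⟩ hnot
    by_contra hne
    apply hnot
    have hall : ∀ x : Site L, ten n w (h (x.1 - 1, x.2)) (h x) (v x) (v (x.1, x.2 - 1)) ≠ 0 :=
      fun x => (Finset.prod_ne_zero_iff.mp hne) x (Finset.mem_univ x)
    have hcond : ∀ x : Site L, h x = v x ∧
        (∀ (i j : Fin (n + 1)) (hi : i.1 + 1 < n + 1),
          h (x.1 - 1, x.2) (⟨i.1 + 1, hi⟩, j) = h x (i, j)) ∧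
        (∀ (i j : Fin (n + 1)) (hj : j.1 + 1 < n + 1),
          v (x.1, x.2 - 1) (i, ⟨j.1 + 1, hj⟩) = h x (i, j)) := by
      intro x
      by_contra hx
      apply hall x
      unfold ten
      rw [if_neg hx]
    have hv : v = h := funext fun x => ((hcond x).1).symm
    subst hv
    have h1 : ∀ (x : Site L) (i j : Fin (n + 1)) (hi : i.1 + 1 < n + 1),
        v x (⟨i.1 + 1, hi⟩, j) = v (x.1 + 1, x.2) (i, j) := by
      intro x i j hi
      have := (hcond (x.1 + 1, x.2)).2.1 i j hi
      simpa using this
    have h2 : ∀ (x : Site L) (i j : Fin (n + 1)) (hj : j.1 + 1 < n + 1),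
        v x (i, ⟨j.1 + 1, hj⟩) = v (x.1, x.2 + 1) (i, j) := by
      intro x i j hj
      have := (hcond (x.1, x.2 + 1)).2.2 i j hj
      simpa using this
    have h3 : ∀ (j : ℕ) (hj : j < n + 1) (x : Site L),
        v x (0, ⟨j, hj⟩) = v (x.1, x.2 + (j : ZMod L)) (0, 0) := by
      intro j
      induction j with
      | zero => intro hj x; simp
      | succ j ih =>
        intro hj x
        have := h2 x 0 ⟨j, by omega⟩ hj
        rw [this, ih (by omega)]
        push_cast
        congr 2
        ring
    have h4 : ∀ (i : ℕ) (hi : i < n + 1) (j : Fin (n + 1)) (x : Site L),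
        v x (⟨i, hi⟩, j) = v (x.1 + (i : ZMod L), x.2 + (j.1 : ZMod L)) (0, 0) := by
      intro i
      induction i with
      | zero =>
        intro hi j x
        have := h3 j.1 j.2 x
        simpa using this
      | succ i ih =>
        intro hi j x
        have := h1 x ⟨i, by omega⟩ j hi
        rw [this, ih (by omega)]
        push_cast
        congr 2
        ring
    refine ⟨fun y => v y (0, 0), ?_⟩
    have h5 : wndw n L (fun y => v y (0, 0)) = v := by
      funext x a
      obtain ⟨i, j⟩ := a
      have := h4 i.1 i.2 j x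
      unfold wndw sh
      exact this.symm
    simp only [h5]
  · intro l
    refine Finset.prod_congr rfl fun x _ => ?_
    unfold ten
    rw [if_pos]
    · rfl
    · refine ⟨rfl, fun i j hi => ?_, fun i j hj => ?_⟩
      · unfold wndw sh
        simp only
        congr 1
        push_cast
        ext
        · simp only; ring
        · rfl
      · unfold wndw sh
        simp only
        congr 1
        push_cast
        ext
        · rfl
        · simp only; ring


end CQ947
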